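import Pool.Agent.Q50.MC.Defs

/-!
# Modularity modulo p from the places of one Frobenius class: data and known facts
-/

set_option autoImplicit false

universe u

namespace Pool.Agent.Q50.ES.MD

open MS (Mod M2 InSpan2 Good IsoM)
open MC (UpperDensityIn InClass)
open GM (Tower)

variable (k : Type u) [Field k]

/-- The elements `x` of `N` such that the traces of `ρ` and `σ` at `t x` are different. -/
def DifferOn {G : Type} [Group G] {n : ℕ} (ρ σ : G →* Matrix (Fin n) (Fin n) k) (N : Subgroup G)
    (t : G) : Set G :=
  {x | x ∈ N ∧ (ρ (t * x)).trace ≠ (σ (t * x)).trace}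

/-- The representations `ρ`, `σ` are isomorphic on `N`. -/
def ConjOver {G : Type} [Group G] {n : ℕ} (ρ σ : G →* Matrix (Fin n) (Fin n) k)
    (N : Subgroup G) : Prop :=
  ∃ P : GL (Fin n) k, ∀ g ∈ N, σ g = (P : Matrix (Fin n) (Fin n) k) * ρ g *
    ((P⁻¹ : GL (Fin n) k) : Matrix (Fin n) (Fin n) k)

/-- Representations of dimension `n ≥ 1` of a finite group over `k`, the first one absolutely irreducible
on the subgroup `N`, whose traces differ on less than `|N| / (2 n ^ 2)` elements of the coset `t N`
are isomorphic on `N`. -/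
def CosetTracesDecide : Prop :=
  ∀ (G : Type) [Group G] [Finite G] (n : ℕ) (ρ σ : G →* Matrix (Fin n) (Fin n) k)
    (N : Subgroup G) (t : G), 0 < n → (∀ a, a ∈ Submodule.span k (ρ '' N)) →
    2 * n ^ 2 * (DifferOn k ρ σ N t).ncard < (N : Set G).ncard → ConjOver k ρ σ N

variable {k} (T : MS.Data k)

/-- Over `L` the representation `r` is irreducible. -/
def IrreducibleOver {F : Fld} (r : Mod k F) (L : Fld) : Prop :=
  ∀ t, InSpan2 {t | ∃ g ∈ Gal L, t = r.toFun g} t

/-- The places of `F` whose Frobenius elements are in the class of `τ` in `Gal(L/F)`. -/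
def Class (F L : Fld) (τ : Γ) : Set (T.place F) := {w | InClass F L τ (T.frob w)}

/-- Some eigenform over `F'` has the same traces as `r` for more than `7/8` of the places of `F'` whose
Frobenius elements are in the class of `τ` in `Gal(L/F')`. -/
def MatchedIn {F : Fld} (F' : Fld) (r : Mod k F) (L : Fld) (τ : Γ) : Prop :=
  ∃ f : T.Form F', UpperDensityIn T.norm (7 / 8) (Class T F' L τ) (T.Agree r f)

/-- For some finite Galois extension `L` of `F'` over which `r` is irreducible and some `τ` in its Galois
group, `r` is matched in the class of `τ`. -/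
def MatchedSomewhere {F : Fld} (F' : Fld) (r : Mod k F) : Prop :=
  ∃ L τ, FiniteGalois F' L ∧ IrreducibleOver r L ∧ τ ∈ Gal F' ∧ MatchedIn T F' r L τ

/-- `χ` is a character of `Gal(Ω/F)` which is trivial on `Gal(Ω/L)`. -/
def IsCharacter (F L : Fld) (χ : Γ → k) : Prop :=
  (∀ g ∈ Gal F, ∀ h ∈ Gal F, χ (g * h) = χ g * χ h) ∧ ∀ h ∈ Gal L, χ h = 1

/-- On `Gal(Ω/F)` the representation `s'` is isomorphic to the twist of `s` by `χ`. -/
def IsTwist {F : Fld} (χ : Γ → k) (s s' : Mod k F) : Prop :=
  ∃ P : GL (Fin 2) k, ∀ g ∈ Gal F,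
    s'.toFun g = χ g • ((P : M2 k) * s.toFun g * ((P⁻¹ : GL (Fin 2) k) : M2 k))

/-- Known: eigenforms over `F` can be twisted by the characters of finite Galois extensions of `F` with
values in `k` (by their Teichmüller lifts). -/
def Twisting : Prop :=
  ∀ (F L : Fld) (χ : Γ → k) (f : T.Form F), FiniteGalois F L → IsCharacter F L χ →
    ∃ f' : T.Form F, IsTwist χ (T.red f) (T.red f')

/-- The known facts: the Chebotarev density theorem, `MS.Data.SolvableDescent`, `MS.Data.Trivialize`,
`MS.Data.Restriction`, `Twisting`, and the modularity of totally odd irreducible representations with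
solvable image (Langlands, Tunnell, Deligne, Serre). -/
structure Facts : Prop where
  chebotarev : ∀ F : Fld, FiniteDimensional ℚ F → MC.Chebotarev F (T.norm (L := F)) T.frob
  descent : T.SolvableDescent
  trivialize : T.Trivialize
  restriction : T.Restriction
  twisting : Twisting T
  frob_mem : ∀ (L : Fld) (w : T.place L), T.frob w ∈ Gal L
  known : ∀ (F : Fld) (r : Mod k F), TotallyReal F → Good r → T.Solvable r → T.Modular r

/-- `r` is modular over the end of a tower: there is a field `F'` at the end of a tower over `F` such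
that `r` is matched somewhere over `F'`. -/
def MatchedOverTower {F : Fld} (r : Mod k F) : Prop :=
  ∃ F', Tower F F' ∧ MatchedSomewhere T F' r

end Pool.Agent.Q50.ES.MD
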