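import Pool.Agent.Q50.MD.Defs
import Pool.Agent.Q50.MC.Main

/-!
# Modularity modulo p from the places of one Frobenius class
-/

set_option autoImplicit false
set_option maxHeartbeats 4000000
set_option synthInstance.maxHeartbeats 400000
set_option linter.unusedSectionVars false
set_option linter.ambiguousOpen false

universe u

open Matrix

namespace Pool.Agent.Q50.ES.MD

open MS (Mod M2 InSpan2 Good IsoM Irreducible)
open MC (UpperDensityIn InClass)
open GM (Tower)

variable {k : Type u} [Field k]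

variable (k) in
theorem cosetTracesDecide : CosetTracesDecide k :=
  fun _ _ _ _ ρ σ N t hn hspan hcard => MC.iso_of_traces hn ρ σ N t hspan hcard

variable {T : MS.Data k}

/-- The restriction of `r` to `F'`. -/
theorem exists_restrict {F F' : Fld} (h : F ≤ F') (hf : FiniteDimensional ℚ F') (r : Mod k F) :
    ∃ r' : Mod k F', r'.toFun = r.toFun := by
  obtain ⟨M, hM, hFM, hker⟩ := r.open_ker
  have hfin : FiniteDimensional ℚ (M ⊔ F' : Fld) := IntermediateField.finiteDimensional_sup M F'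
  exact ⟨{ toFun := r.toFun
           one := r.one
           mul := fun g hg g' hg' => r.mul g (fix_le h hg) g' (fix_le h hg')
           open_ker := ⟨M ⊔ F', hfin, le_sup_right, fun x hx => hker x (fix_le le_sup_left hx)⟩ },
    rfl⟩

theorem isCharacter_inv {F L : Fld} {χ : Γ → k} (h : IsCharacter F L χ) :
    IsCharacter F L fun g => (χ g)⁻¹ := by
  refine ⟨fun g hg g' hg' => ?_, fun g hg => ?_⟩
  · change (χ (g * g'))⁻¹ = (χ g)⁻¹ * (χ g')⁻¹
    rw [h.1 g hg g' hg', mul_inv]
  · change (χ g)⁻¹ = 1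
    rw [h.2 g hg, inv_one]

theorem char_ne_zero {F L : Fld} {χ : Γ → k} (h : IsCharacter F L χ) {g : Γ} (hg : g ∈ Gal F) :
    χ g ≠ 0 := by
  intro h0
  have h1 := h.1 g hg g⁻¹ (gal_inv hg)
  rw [mul_inv_cancel, h.2 1 L.fixingSubgroup.one_mem, h0, zero_mul] at h1
  exact one_ne_zero h1

/-- If `r` is matched in a class over `F'`, then it is modular over `F'`. -/
theorem iso_of_matchedIn (hT : Facts T) {F F' : Fld} (hF' : FiniteDimensional ℚ F') (h : F ≤ F')
    (r : Mod k F) {L : Fld} {τ : Γ} (hL : FiniteGalois F' L) (hirr : IrreducibleOver r L)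
    (hτ : τ ∈ Gal F') (hm : MatchedIn T F' r L τ) : ∃ f : T.Form F', IsoM F' r (T.red f) := by
  obtain ⟨r', hr'⟩ := exists_restrict h hF' r
  obtain ⟨f, hf⟩ := hm
  have hirr' : ∀ t, InSpan2 {t | ∃ g ∈ Gal L, t = r'.toFun g} t := by
    rw [hr']
    exact hirr
  obtain ⟨Q, hQ⟩ := MC.iso_of_density (hT.chebotarev F' hF') (hT.frob_mem F') hL hτ r' (T.red f)
    hirr' (by
      obtain ⟨δ, hδ, hfr⟩ := hf
      refine ⟨δ, hδ, hfr.mono fun x hx => hx.trans (le_of_eq ?_)⟩
      congr 2
      ext w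
      constructor
      · rintro ⟨⟨h1, h2⟩, h3⟩
        refine ⟨⟨⟨h2, ?_⟩, h2⟩, h3⟩
        rw [hr']
        exact h1
      · rintro ⟨⟨⟨h1, h2⟩, _⟩, h3⟩
        refine ⟨⟨?_, h1⟩, h3⟩
        rw [hr'] at h2
        exact h2)
  obtain ⟨χ, hm, hχL, hχ⟩ := MC.exists_twist hL r' (T.red f) hirr' hQ
  have hχc : IsCharacter F' L χ := ⟨hm, hχL⟩
  obtain ⟨f', P, hP⟩ := hT.twisting F' L _ f hL (isCharacter_inv hχc)
  refine ⟨f', P * Q, fun g hg => ?_⟩
  rw [hP g hg, hχ g hg, hr', mul_smul_comm, smul_mul_assoc, smul_smul,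
    inv_mul_cancel₀ (char_ne_zero hχc hg), one_smul, _root_.mul_inv_rev, Units.val_mul, Units.val_mul]
  simp only [mul_assoc]

theorem matchedIn_of_iso (hT : Facts T) {F F' : Fld} (r : Mod k F) (L : Fld) (τ : Γ)
    {f : T.Form F'} (h : IsoM F' r (T.red f)) : MatchedIn T F' r L τ := by
  obtain ⟨P, hP⟩ := h
  refine ⟨f, 1, by norm_num, Filter.Frequently.of_forall fun x => ?_⟩
  have h1 : T.Agree r f = Set.univ := by
    refine Set.eq_univ_of_forall fun w => ?_
    change (r.toFun (T.frob w)).trace = ((T.red f).toFun (T.frob w)).trace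
    rw [hP _ (hT.frob_mem F' w), trace_mul_comm, ← mul_assoc, ← Units.val_mul, inv_mul_cancel,
      Units.val_one, one_mul]
  rw [h1, Set.univ_inter, one_mul]

/-- **One representation, one class.** -/
theorem modular_iff (hT : Facts T) {F : Fld} (hF : TotallyReal F) (r : Mod k F) {L : Fld} {τ : Γ}
    (hL : FiniteGalois F L) (hirr : IrreducibleOver r L) (hτ : τ ∈ Gal F) :
    T.Modular r ↔ MatchedIn T F r L τ := by
  constructor
  · rintro ⟨f, hf⟩
    exact matchedIn_of_iso hT r L τ hf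
  · exact fun h => iso_of_matchedIn hT hF.1 le_rfl r hL hirr hτ h

theorem finiteGalois_self {F : Fld} (hF : FiniteDimensional ℚ F) : FiniteGalois F F := by
  refine ⟨le_rfl, hF, fun g hg x hx => ?_⟩
  have h1 : g x = x := (IntermediateField.mem_fixingSubgroup_iff F g).1 hg x hx
  rw [h1]
  exact hx

/-- **One representation, over a tower.** -/
theorem modular_iff_tower (hT : Facts T) {F : Fld} (hF : TotallyReal F) (r : Mod k F)
    (hr : Good r) (hs : ¬ T.Solvable r) : T.Modular r ↔ MatchedOverTower T r := by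
  constructor
  · rintro ⟨f, hf⟩
    exact ⟨F, Relation.ReflTransGen.refl, F, 1, finiteGalois_self hF.1, hr.1,
      F.fixingSubgroup.one_mem, matchedIn_of_iso hT r F 1 hf⟩
  · rintro ⟨F', hF', L, τ, hL, hirr, hτ, hm⟩
    obtain ⟨f, hf⟩ := iso_of_matchedIn hT (GM.tower_real hF' hF).1 (GM.tower_le hF') r hL
      hirr hτ hm
    exact hT.descent F F' r f hF hr hs hF' hf

/-- **All representations.** -/
theorem all_iff (hT : Facts T) {M₀ : Fld} (hM : TotallyReal M₀) (hG : SolvableGalois M₀) :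
    (∀ F, TotallyReal F → ∀ r : Mod k F, Good r → T.Modular r) ↔
      ∀ F, TotallyReal F → M₀ ≤ F → ∀ r : Mod k F, Good r → ¬ T.Solvable r → T.Simple r →
        MatchedOverTower T r := by
  constructor
  · intro h F hF _ r hr hs _
    exact (modular_iff_tower hT hF r hr hs).1 (h F hF r hr)
  · intro h F hF r hr
    by_cases hs : T.Solvable r
    · exact hT.known F r hF hr hs
    obtain ⟨L, hL, hLr, hML, r', hr', hg, hns, hsim⟩ := hT.trivialize F M₀ r hF hM hG hr hs
    obtain ⟨f, P, hP⟩ := (modular_iff_tower hT hLr r' hg hns).2 (h L hLr hML r' hg hns hsim)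
    refine hT.descent F L r f hF hr hs hL ⟨P, fun g hg => ?_⟩
    rw [hP g hg, hr']

end Pool.Agent.Q50.ES.MD
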